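import Pool.Agent.Helper21.HG.Part

/-!
# Chebyshev and Mertens in a number field (project HG, block MERT)
-/

set_option autoImplicit false

open NumberField Filter Topology IsDedekindDomain
open scoped ArithmeticFunction

namespace Pool.Agent.Helper21.HG

open Pool.Agent.HG Pool.Agent.Helper70.Art Pool.Agent.H53SCD

noncomputable section

variable {k : Type} [Field k] [NumberField k]

/-- the prime number below a prime -/
def pb (v : Pr k) : Nat.Primes := ((Equiv.ofBijective _ (regr_bij (F := k))).symm v).1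

theorem exists_over (v : Pr k) : ∃ w : (sp (pb v : ℕ)).primesOver (𝓞 k),
    regr ⟨pb v, w⟩ = v :=
  ⟨((Equiv.ofBijective _ (regr_bij (F := k))).symm v).2,
    (Equiv.ofBijective _ (regr_bij (F := k))).apply_symm_apply v⟩

theorem nm_eq_pow (v : Pr k) : ∃ f : ℕ, 1 ≤ f ∧ nm v = (pb v : ℕ) ^ f := by
  have hp : Fact (pb v : ℕ).Prime := ⟨(pb v).2⟩
  obtain ⟨w, hw⟩ := exists_over v
  refine ⟨w.1.inertiaDeg ℤ, ?_, ?_⟩
  · rw [Nat.one_le_iff_ne_zero]
    intro h
    have h2 := absNorm_primesOver (pb v : ℕ) w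
    rw [h, pow_zero] at h2
    have h3 := two_le_norm k v
    have h4 : v.asIdeal = w.1 := (congrArg HeightOneSpectrum.asIdeal hw).symm
    rw [h4] at h3
    omega
  · have h4 : v.asIdeal = w.1 := (congrArg HeightOneSpectrum.asIdeal hw).symm
    have h2 := absNorm_primesOver (pb v : ℕ) w
    unfold nm
    rw [h4, h2]

theorem pb_mem (v : Pr k) : ((pb v : ℕ) : 𝓞 k) ∈ v.asIdeal := by
  obtain ⟨w, hw⟩ := exists_over v
  have h4 : v.asIdeal = w.1 := (congrArg HeightOneSpectrum.asIdeal hw).symm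
  rw [h4]
  have h5 := w.2.2
  have h6 : ((pb v : ℕ) : ℤ) ∈ w.1.under ℤ := by
    rw [← h5.over]
    exact Ideal.mem_span_singleton_self _
  have h7 : algebraMap ℤ (𝓞 k) ((pb v : ℕ) : ℤ) ∈ w.1 := h6
  simpa using h7

theorem nm_le_pow (v : Pr k) : nm v ≤ (pb v : ℕ) ^ Module.finrank ℚ k := by
  have h1 : nm v ∣ Ideal.absNorm (Ideal.span {((pb v : ℕ) : 𝓞 k)}) := by
    apply Ideal.absNorm_dvd_absNorm_of_le
    rw [Ideal.span_singleton_le_iff_mem]
    exact pb_mem v
  have h2 : Ideal.absNorm (Ideal.span {((pb v : ℕ) : 𝓞 k)}) = (pb v : ℕ) ^ Module.finrank ℚ k := by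
    rw [Ideal.absNorm_span_natCast, RingOfIntegers.rank]
  rw [h2] at h1
  exact Nat.le_of_dvd (pow_pos (pb v).2.pos _) h1

open scoped Classical in
theorem card_fib (s : Finset (Pr k)) (p : Nat.Primes) :
    (s.filter fun v => pb v = p).card ≤ Module.finrank ℚ k := by
  have hp : Fact (p : ℕ).Prime := ⟨p.2⟩
  refine le_trans ?_ (card_primesOver_le k (p : ℕ))
  rw [← Finset.card_univ]
  refine le_trans (Finset.card_le_card (t := Finset.univ.image
    fun w : (sp (p : ℕ)).primesOver (𝓞 k) => regr (F := k) ⟨p, w⟩) ?_) Finset.card_image_le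
  intro v hv
  have h1 : pb v = p := (Finset.mem_filter.1 hv).2
  obtain ⟨w, hw⟩ := exists_over v
  subst h1
  exact Finset.mem_image.2 ⟨w, Finset.mem_univ _, hw⟩

theorem pb_le (v : Pr k) : (pb v : ℕ) ≤ nm v := by
  obtain ⟨f, hf, h⟩ := nm_eq_pow v
  rw [h]
  exact Nat.le_self_pow (by omega) _

/-- A bound for sums over primes by sums over prime numbers. -/
theorem sum_le (s : Finset (Pr k)) (x : ℕ) (hs : ∀ v ∈ s, nm v ≤ x) (f : Pr k → ℝ) (g : Nat.Primes → ℝ)
    (hg : ∀ p, 0 ≤ g p) (hfg : ∀ v ∈ s, f v ≤ g (pb v)) :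
    ∑ v ∈ s, f v ≤ Module.finrank ℚ k * ∑ p ∈ PX x, g p := by
  classical
  rw [← Finset.sum_fiberwise_of_maps_to (s := s) (t := PX x) (g := pb) (fun v hv =>
    mem_PX.2 ((pb_le v).trans (hs v hv))), Finset.mul_sum]
  refine Finset.sum_le_sum fun p _ => ?_
  calc ∑ v ∈ s.filter (fun v => pb v = p), f v ≤ ∑ v ∈ s.filter (fun v => pb v = p), g p := by
        refine Finset.sum_le_sum fun v hv => ?_
        rw [Finset.mem_filter] at hv
        rw [← hv.2]
        exact hfg v hv.1
    _ = (s.filter (fun v => pb v = p)).card * g p := by rw [Finset.sum_const, nsmul_eq_mul]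
    _ ≤ Module.finrank ℚ k * g p := by
        refine mul_le_mul_of_nonneg_right ?_ (hg p)
        exact_mod_cast card_fib s p

/-- **BLOCK MERT.** -/
theorem mert : StmtMert := by
  classical
  intro k _ _ B hB
  constructor
  · refine ⟨Module.finrank ℚ k * (Module.finrank ℚ k * (Real.log 4 + 4)), fun x => ?_⟩
    have h1 := sum_le (B x) x (fun v hv => (hB x v).1 hv) (fun v => Real.log (nm v))
      (fun p => Module.finrank ℚ k * Real.log (p : ℕ)) (fun p => by
        have := Real.log_natCast_nonneg (p : ℕ)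
        positivity) (fun v _ => by
        rw [← Real.log_pow]
        apply Real.log_le_log
        · have := two_le_norm k v
          exact_mod_cast (by unfold nm; omega : 0 < nm v)
        · exact_mod_cast nm_le_pow v)
    rw [← Finset.mul_sum] at h1
    have h2 : ∑ p ∈ PX x, Real.log (p : ℕ) ≤ (Real.log 4 + 4) * x := by
      rw [sum_PX (fun n => Real.log n)]
      refine le_trans ?_ (Pool.Agent.Helper21.HP.psi_range x)
      rw [Finset.sum_filter]
      refine Finset.sum_le_sum fun n _ => ?_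
      split_ifs with h
      · rw [ArithmeticFunction.vonMangoldt_apply_prime h]
      · exact ArithmeticFunction.vonMangoldt_nonneg
    calc ∑ v ∈ B x, Real.log (nm v) ≤ _ := h1
      _ ≤ Module.finrank ℚ k * (Module.finrank ℚ k * ((Real.log 4 + 4) * x)) := by gcongr
      _ = _ := by ring
  · obtain ⟨Q, hQ⟩ : ∃ Q : Set (Pr k), ∀ v, v ∈ Q ↔ (nm v).Prime := ⟨{v | (nm v).Prime}, fun v => Iff.rfl⟩
    obtain ⟨C, hC⟩ := cntp_log k
    obtain ⟨C₁, h1⟩ := density_of_dirichlet B hB Q (fun v hv => (hQ v).1 hv) (fun p => (cnt k p : ℝ)) ∅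
      (δ := 1) (C := C) (by
        intro p _
        have hp : Fact (p : ℕ).Prime := ⟨p.2⟩
        rw [← card_nm (k := k) (p : ℕ)]
        congr 1
        refine Nat.card_congr (Equiv.subtypeEquivRight fun v => ?_)
        constructor
        · intro h
          refine ⟨?_, h⟩
          rw [hQ, h]
          exact p.2
        · exact fun h => h.2) (by
        simp only [one_mul]
        exact hC)
    have hs2 := summable_rpow_primes (show (1 : ℝ) < 2 by norm_num)
    refine ⟨C₁ + Module.finrank ℚ k * ∑' p : Nat.Primes, (p : ℝ) ^ (-2 : ℝ), fun x hx => ?_⟩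
    have h2 := h1 x hx
    have h3 : ∑ v ∈ B x, (1 : ℝ) / nm v = ∑ v ∈ (B x).filter (· ∈ Q), (1 : ℝ) / nm v +
        ∑ v ∈ (B x).filter (¬ · ∈ Q), (1 : ℝ) / nm v :=
      (Finset.sum_filter_add_sum_filter_not _ _ _).symm
    have h4 : 0 ≤ ∑ v ∈ (B x).filter (¬ · ∈ Q), (1 : ℝ) / nm v :=
      Finset.sum_nonneg fun v _ => by positivity
    have h5 : ∑ v ∈ (B x).filter (¬ · ∈ Q), (1 : ℝ) / nm v ≤
        Module.finrank ℚ k * ∑' p : Nat.Primes, (p : ℝ) ^ (-2 : ℝ) := by
      have h6 := sum_le ((B x).filter (¬ · ∈ Q)) x (fun v hv => (hB x v).1 (Finset.mem_filter.1 hv).1)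
        (fun v => (1 : ℝ) / nm v) (fun p => ((p : ℕ) : ℝ) ^ (-2 : ℝ)) (fun p => by positivity) (by
          intro v hv
          have h7 : ¬ (nm v).Prime := fun h => (Finset.mem_filter.1 hv).2 ((hQ v).2 h)
          obtain ⟨f, hf, h8⟩ := nm_eq_pow v
          have h9 : 2 ≤ f := by
            by_contra h
            have : f = 1 := by omega
            rw [this, pow_one] at h8
            exact h7 (h8 ▸ (pb v).2)
          have h10 : (pb v : ℕ) ^ 2 ≤ nm v := by
            rw [h8]
            exact Nat.pow_le_pow_right (pb v).2.pos h9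
          have h11 : (((pb v : ℕ) : ℝ)) ^ 2 ≤ (nm v : ℝ) := by exact_mod_cast h10
          have h12 : (0 : ℝ) < ((pb v : ℕ) : ℝ) := by exact_mod_cast (pb v).2.pos
          have h13 : (((pb v : ℕ) : ℝ)) ^ (-2 : ℝ) = 1 / ((pb v : ℕ) : ℝ) ^ 2 := by
            rw [Real.rpow_neg h12.le, one_div]
            norm_num
          rw [h13]
          exact one_div_le_one_div_of_le (by positivity) h11)
      refine h6.trans ?_
      refine mul_le_mul_of_nonneg_left ?_ (Nat.cast_nonneg _)
      exact hs2.sum_le_tsum _ fun p _ => by positivity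
    rw [h3]
    rw [one_mul] at h2
    rw [abs_le] at h2 ⊢
    constructor <;> linarith [h2.1, h2.2]

end

end Pool.Agent.Helper21.HG
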