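import Pool.Agent.Helper21.HG.Part

/-!
# The primes which split completely (project HG, block SPLIT)
-/

set_option autoImplicit false

open NumberField Filter Topology IsDedekindDomain
open scoped Pointwise

namespace Pool.Agent.Helper21.HG

open Pool.Agent.HG Pool.Agent.Helper70.Art Pool.Agent.H53SCD

noncomputable section

variable {k L : Type} [Field k] [NumberField k] [Field L] [NumberField L] [Algebra k L]

/-- a primitive algebraic integer -/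
theorem exists_prim [IsGalois k L] : ∃ θ : 𝓞 L, ∀ g : L ≃ₐ[k] L, g • θ = θ → g = 1 := by
  set pb := Field.powerBasisOfFiniteOfSeparable k L
  obtain ⟨m, hm0, hm⟩ := exists_integral_multiples ℤ ℚ ({pb.gen} : Finset L)
  have h1 := hm pb.gen (Finset.mem_singleton_self pb.gen)
  refine ⟨⟨m • pb.gen, h1⟩, fun g hg => ?_⟩
  have h2 : g (m • pb.gen) = m • pb.gen := congrArg (fun z : 𝓞 L => (z : L)) hg
  have hm' : (m : L) ≠ 0 := by exact_mod_cast hm0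
  have h3 : g pb.gen = pb.gen := by
    rw [zsmul_eq_mul, map_mul, map_intCast] at h2
    exact mul_left_cancel₀ hm' h2
  have h4 : (g : L →ₐ[k] L) = ((1 : L ≃ₐ[k] L) : L →ₐ[k] L) := pb.algHom_ext h3
  ext x
  exact DFunLike.congr_fun h4 x

theorem exists_ram [IsGalois k L] : ∃ N : ℕ, N ≠ 0 ∧ ∀ (p : ℕ) [Fact p.Prime], ¬ p ∣ N →
    ∀ (Φ : 𝓞 L →+* ZMod p) (g : L ≃ₐ[k] L), (∀ z, Φ (g • z) = Φ z) → g = 1 := by
  classical
  have := Fintype.ofFinite (L ≃ₐ[k] L)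
  obtain ⟨θ, hθ⟩ := exists_prim (k := k) (L := L)
  have hb : ∀ g : L ≃ₐ[k] L, ∃ m : ℕ, m ≠ 0 ∧ (g ≠ 1 → ∀ p [Fact p.Prime], ¬ p ∣ m →
      ∀ Ψ : 𝓞 L →+* Fb p, Ψ (g • θ - θ) ≠ 0) := by
    intro g
    by_cases h : g = 1
    · exact ⟨1, one_ne_zero, fun h' => absurd h h'⟩
    · obtain ⟨m, hm, hm'⟩ := exists_bad (g • θ - θ) (sub_ne_zero.2 fun h' => h (hθ g h'))
      exact ⟨m, hm, fun _ => hm'⟩
  choose b hb0 hb using hb
  refine ⟨∏ g, b g, Finset.prod_ne_zero_iff.2 fun g _ => hb0 g, ?_⟩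
  intro p hp hpN Φ g hg
  by_contra h
  refine hb g h p (fun h' => hpN (h'.trans (Finset.dvd_prod_of_mem _ (Finset.mem_univ g))))
    ((io p).comp Φ) ?_
  rw [RingHom.comp_apply, map_sub, hg, sub_self, map_zero]

/-- The action on the homomorphisms. -/
def act (p : ℕ) (Φ : 𝓞 L →+* ZMod p) (g : L ≃ₐ[k] L) : 𝓞 L →+* ZMod p :=
  Φ.comp (MulSemiringAction.toRingHom (L ≃ₐ[k] L) (𝓞 L) g)

theorem act_apply (p : ℕ) (Φ : 𝓞 L →+* ZMod p) (g : L ≃ₐ[k] L) (z : 𝓞 L) :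
    act p Φ g z = Φ (g • z) := rfl

theorem card_over_galois [IsGalois k L] {N : ℕ} (hN : ∀ (p : ℕ) [Fact p.Prime], ¬ p ∣ N →
    ∀ (Φ : 𝓞 L →+* ZMod p) (g : L ≃ₐ[k] L), (∀ z, Φ (g • z) = Φ z) → g = 1)
    (p : ℕ) [hp : Fact p.Prime] (hpN : ¬ p ∣ N) (ψ : 𝓞 k →+* ZMod p)
    (hne : Nonempty (H53SCD.Over L p ψ)) :
    Nat.card (H53SCD.Over L p ψ) = Nat.card (L ≃ₐ[k] L) := by
  obtain ⟨Φ₀, hΦ₀⟩ := hne
  symm
  refine Nat.card_congr (Equiv.ofBijective (fun g => (⟨act p Φ₀ g, ?_⟩ : H53SCD.Over L p ψ)) ⟨?_, ?_⟩)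
  · ext a
    rw [RingHom.comp_apply, act_apply, smul_const, ← hΦ₀, RingHom.comp_apply]
  · intro g g' h
    have h1 : act p Φ₀ g = act p Φ₀ g' := congrArg Subtype.val h
    have h2 := hN p hpN (act p Φ₀ g') (g'⁻¹ * g) (by
      intro z
      rw [act_apply, mul_smul, smul_inv_smul, ← act_apply, h1])
    rw [inv_mul_eq_one] at h2
    exact h2.symm
  · rintro ⟨Φ, hΦ⟩
    have hu : (RingHom.ker Φ₀).under (𝓞 k) = (RingHom.ker Φ).under (𝓞 k) := by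
      ext a
      change Φ₀ (algebraMap (𝓞 k) (𝓞 L) a) = 0 ↔ Φ (algebraMap (𝓞 k) (𝓞 L) a) = 0
      rw [← RingHom.comp_apply, ← RingHom.comp_apply, hΦ₀, hΦ]
    have h1 := RingHom.ker_isPrime Φ₀
    have h2 := RingHom.ker_isPrime Φ
    obtain ⟨g, hg⟩ := Algebra.IsInvariant.exists_smul_of_under_eq (𝓞 k) (𝓞 L) (L ≃ₐ[k] L)
      (RingHom.ker Φ₀) (RingHom.ker Φ) hu
    refine ⟨g⁻¹, ?_⟩
    apply Subtype.ext
    apply ZMod.ringHom_eq_of_ker_eq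
    rw [hg]
    ext z
    rw [RingHom.mem_ker, act_apply, Ideal.mem_pointwise_smul_iff_inv_smul_mem, RingHom.mem_ker]

open scoped Classical in
theorem cnt_galois [IsGalois k L] {N : ℕ} (hN : ∀ (p : ℕ) [Fact p.Prime], ¬ p ∣ N →
    ∀ (Φ : 𝓞 L →+* ZMod p) (g : L ≃ₐ[k] L), (∀ z, Φ (g • z) = Φ z) → g = 1)
    (p : ℕ) [hp : Fact p.Prime] (hpN : ¬ p ∣ N) :
    cnt L p = Nat.card {ψ : 𝓞 k →+* ZMod p // Nonempty (H53SCD.Over L p ψ)} * Nat.card (L ≃ₐ[k] L) := by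
  rw [card_homs_eq (k := k) L p]
  have h1 : ∀ ψ : 𝓞 k →+* ZMod p, Nat.card (H53SCD.Over L p ψ) =
      if Nonempty (H53SCD.Over L p ψ) then Nat.card (L ≃ₐ[k] L) else 0 := by
    intro ψ
    split_ifs with h
    · exact card_over_galois hN p hpN ψ h
    · rw [not_nonempty_iff] at h
      exact Nat.card_of_isEmpty
  rw [Finset.sum_congr rfl fun ψ _ => h1 ψ, ← Finset.sum_filter, Finset.sum_const, smul_eq_mul,
    Nat.card_eq_fintype_card (α := {ψ : 𝓞 k →+* ZMod p // Nonempty (H53SCD.Over L p ψ)}),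
    Fintype.card_subtype]

/-- the primes of degree one which split completely -/
def QS (k L : Type) [Field k] [NumberField k] [Field L] [NumberField L] [Algebra k L] (N : ℕ) :
    Set (Pr k) :=
  {v | (nm v).Prime ∧ ¬ nm v ∣ N ∧
    ∃ P : Pr L, P.asIdeal.comap (algebraMap (𝓞 k) (𝓞 L)) = v.asIdeal ∧ nm P = nm v}

theorem mem_QS_iff {N : ℕ} (p : ℕ) [hp : Fact p.Prime] (hpN : ¬ p ∣ N) (ψ : 𝓞 k →+* ZMod p) :
    (homEquiv p ψ).1 ∈ QS k L N ↔ Nonempty (H53SCD.Over L p ψ) := by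
  have hnm : nm (homEquiv p ψ).1 = p := (homEquiv p ψ).2
  constructor
  · rintro ⟨-, -, P, hP, hn⟩
    rw [hnm] at hn
    obtain ⟨Φ, hΦ⟩ := (homEquiv (k := L) p).surjective ⟨P, hn⟩
    refine ⟨Φ, ?_⟩
    apply ZMod.ringHom_eq_of_ker_eq
    have h1 : RingHom.ker Φ = P.asIdeal := by
      have := congrArg (fun z : {v : Pr L // nm v = p} => z.1.asIdeal) hΦ
      exact this
    rw [← RingHom.comap_ker, h1, hP]
    rfl
  · rintro ⟨Φ, hΦ⟩
    refine ⟨by rw [hnm]; exact hp.out, by rw [hnm]; exact hpN, (homEquiv (k := L) p Φ).1, ?_, ?_⟩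
    · rw [homEquiv_ideal, homEquiv_ideal, RingHom.comap_ker, hΦ]
    · rw [hnm, (homEquiv (k := L) p Φ).2]

theorem card_QS [IsGalois k L] {N : ℕ} (hN : ∀ (p : ℕ) [Fact p.Prime], ¬ p ∣ N →
    ∀ (Φ : 𝓞 L →+* ZMod p) (g : L ≃ₐ[k] L), (∀ z, Φ (g • z) = Φ z) → g = 1)
    (p : ℕ) [hp : Fact p.Prime] (hpN : ¬ p ∣ N) :
    cnt L p = Nat.card {v : Pr k // v ∈ QS k L N ∧ nm v = p} * Nat.card (L ≃ₐ[k] L) := by
  rw [cnt_galois hN p hpN]
  congr 1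
  refine Nat.card_congr (Equiv.ofBijective
    (fun ψ : {ψ : 𝓞 k →+* ZMod p // Nonempty (H53SCD.Over L p ψ)} =>
      (⟨(homEquiv p ψ.1).1, (mem_QS_iff p hpN ψ.1).2 ψ.2, (homEquiv p ψ.1).2⟩ :
        {v : Pr k // v ∈ QS k L N ∧ nm v = p})) ⟨?_, ?_⟩)
  · intro ψ ψ' h
    have h1 : (homEquiv p ψ.1).1 = (homEquiv p ψ'.1).1 :=
      congrArg (fun z : {v : Pr k // v ∈ QS k L N ∧ nm v = p} => z.1) h
    exact Subtype.ext ((homEquiv p).injective (Subtype.ext h1))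
  · rintro ⟨v, hv, hvp⟩
    obtain ⟨ψ, hψ⟩ := (homEquiv (k := k) p).surjective ⟨v, hvp⟩
    have h1 : (homEquiv p ψ).1 = v := congrArg Subtype.val hψ
    refine ⟨⟨ψ, (mem_QS_iff p hpN ψ).1 (h1 ▸ hv)⟩, ?_⟩
    exact Subtype.ext h1

theorem frob_QS [IsGalois k L] {N : ℕ} (v : Pr k) (hv : v ∈ QS k L N) (P : Pr L)
    (hP : P.asIdeal.comap (algebraMap (𝓞 k) (𝓞 L)) = v.asIdeal) (z : 𝓞 L) :
    z ^ nm v - z ∈ P.asIdeal := by
  obtain ⟨hpr, -, P', hP', hn⟩ := hv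
  have h1 := P.isPrime
  have h2 := P'.isPrime
  obtain ⟨g, hg⟩ := Algebra.IsInvariant.exists_smul_of_under_eq (𝓞 k) (𝓞 L) (L ≃ₐ[k] L)
    P'.asIdeal P.asIdeal (by
      change P'.asIdeal.comap _ = P.asIdeal.comap _
      rw [hP, hP'])
  rw [hg, Ideal.mem_pointwise_smul_iff_inv_smul_mem, smul_sub, smul_pow']
  set w := g⁻¹ • z
  have hm : P'.asIdeal.IsMaximal := P'.isMaximal
  let : Field (𝓞 L ⧸ P'.asIdeal) := Ideal.Quotient.field _
  have hc : Nat.card (𝓞 L ⧸ P'.asIdeal) = nm v := by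
    rw [← hn, nm, Ideal.absNorm_apply, Submodule.cardQuot_apply]
  have hfin : Finite (𝓞 L ⧸ P'.asIdeal) := Nat.finite_of_card_ne_zero (by
    rw [hc]; exact hpr.ne_zero)
  have := Fintype.ofFinite (𝓞 L ⧸ P'.asIdeal)
  rw [← Ideal.Quotient.eq_zero_iff_mem, map_sub, map_pow, ← hc, Nat.card_eq_fintype_card,
    FiniteField.pow_card, sub_self]

/-- **BLOCK SPLIT.** -/
theorem split : StmtSplit := by
  intro k L _ _ _ _ _ _ B hB
  obtain ⟨N, hN0, hN⟩ := exists_ram (k := k) (L := L)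
  have hG : 0 < Nat.card (L ≃ₐ[k] L) := Nat.card_pos
  have hG' : (0 : ℝ) < (Nat.card (L ≃ₐ[k] L) : ℝ) := by exact_mod_cast hG
  obtain ⟨C, hC⟩ := cntp_log L
  obtain ⟨C₁, h1⟩ := density_of_dirichlet B hB (QS k L N) (fun v hv => hv.1)
    (fun p => (cnt L p : ℝ) / Nat.card (L ≃ₐ[k] L)) N.divisors (δ := 1 / Nat.card (L ≃ₐ[k] L))
    (C := C / Nat.card (L ≃ₐ[k] L)) (by
      intro p hp
      have hpf : Fact (p : ℕ).Prime := ⟨p.2⟩
      rw [Nat.mem_divisors, not_and_or] at hp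
      have hpN : ¬ (p : ℕ) ∣ N := by
        rcases hp with hp | hp
        · exact hp
        · exact absurd hN0 hp
      rw [card_QS (k := k) hN (p : ℕ) hpN]
      push_cast
      rw [mul_div_assoc, div_self hG'.ne', mul_one]) (by
      filter_upwards [hC] with s hs
      have h2 : ∑' p : Nat.Primes, (cnt L p : ℝ) / Nat.card (L ≃ₐ[k] L) * (p : ℝ) ^ (-s) =
          (∑' p : Nat.Primes, (cnt L p : ℝ) * (p : ℝ) ^ (-s)) / Nat.card (L ≃ₐ[k] L) := by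
        rw [← tsum_div_const]
        exact tsum_congr fun p => by ring
      rw [h2]
      have h3 : (∑' p : Nat.Primes, (cnt L p : ℝ) * (p : ℝ) ^ (-s)) / Nat.card (L ≃ₐ[k] L) -
          1 / Nat.card (L ≃ₐ[k] L) * Real.log (1 / (s - 1)) =
          (∑' p : Nat.Primes, (cnt L p : ℝ) * (p : ℝ) ^ (-s) - Real.log (1 / (s - 1))) /
            Nat.card (L ≃ₐ[k] L) := by ring
      rw [h3, abs_div, abs_of_pos hG']
      gcongr)
  exact ⟨1 / Nat.card (L ≃ₐ[k] L), C₁, QS k L N, by positivity,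
    fun v hv P hP z => frob_QS v hv P hP z, h1⟩

end

end Pool.Agent.Helper21.HG
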