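import Pool.Agent.Helper13.HG.Defs
import Pool.Agent.Helper21.HP.Mert
import Pool.Agent.Helper53.SCD.Arith

/-!
# From Dirichlet series to partial sums (project HG)

If `∑ a(p) p^{-s} = δ log (1/(s-1)) + O(1)` with bounded `a(p)` then
`∑_{p ≤ x} a(p)/p = δ log log x + O(1)`.
-/

set_option autoImplicit false

open NumberField Filter Topology IsDedekindDomain

namespace Pool.Agent.Helper21.HG

open Pool.Agent.HG Pool.Agent.Helper70.Art Pool.Agent.H53SCD

noncomputable section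

/-- the primes up to `x` -/
def PX (x : ℕ) : Finset Nat.Primes := (Finset.range (x + 1)).subtype Nat.Prime

theorem mem_PX {x : ℕ} {p : Nat.Primes} : p ∈ PX x ↔ (p : ℕ) ≤ x := by
  have h : p ∈ PX x ↔ (p : ℕ) ∈ Finset.range (x + 1) := Finset.mem_subtype
  rw [h, Finset.mem_range]
  omega

theorem sum_PX (f : ℕ → ℝ) (x : ℕ) :
    ∑ p ∈ PX x, f (p : ℕ) = ∑ n ∈ (Finset.range (x + 1)).filter Nat.Prime, f n :=
  Finset.sum_subtype_eq_sum_filter f

theorem mertens : ∃ C : ℝ, 0 ≤ C ∧ ∀ x : ℕ, 2 ≤ x →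
    |∑ p ∈ PX x, (1 : ℝ) / (p : ℕ) - Real.log (Real.log x)| ≤ C ∧
    ∑ p ∈ PX x, Real.log (p : ℕ) / (p : ℕ) ≤ Real.log x + C := by
  obtain ⟨C, hC⟩ := Pool.Agent.Helper21.HP.mert
  have h0 : 0 ≤ C := (abs_nonneg _).trans (hC 2 le_rfl).1
  refine ⟨C, h0, fun x hx => ?_⟩
  have hP : Pool.Agent.HP.PP 1 x = (Finset.range (x + 1)).filter Nat.Prime := by
    unfold Pool.Agent.HP.PP
    apply Finset.filter_congr
    intro n _
    constructor
    · exact fun h => h.1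
    · exact fun h => ⟨h, h.not_dvd_one⟩
  have h1 := hC x hx
  rw [hP] at h1
  rw [sum_PX (fun n => (1 : ℝ) / n), sum_PX (fun n => Real.log n / n)]
  exact h1

theorem dir_upper : ∃ C : ℝ, ∀ᶠ s in 𝓝[>] (1 : ℝ),
    ∑' p : Nat.Primes, (p : ℝ) ^ (-s) ≤ Real.log (1 / (s - 1)) + C := by
  obtain ⟨C, hC⟩ := cntp_log ℚ
  refine ⟨C, ?_⟩
  filter_upwards [hC, self_mem_nhdsWithin] with s h hs
  have hs1 : (1 : ℝ) < s := hs
  have h1 : ∑' p : Nat.Primes, (p : ℝ) ^ (-s) ≤ ∑' p : Nat.Primes, (cnt ℚ p : ℝ) * (p : ℝ) ^ (-s) := by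
    refine (summable_rpow_primes hs1).tsum_le_tsum (fun p => ?_) (summable_cntp ℚ hs1)
    have hp : Fact (p : ℕ).Prime := ⟨p.2⟩
    have h2 : 1 ≤ cnt ℚ (p : ℕ) := by
      rw [cnt_eq_homs]
      have := finite_homs ℚ (p : ℕ)
      have : Nonempty (𝓞 ℚ →+* ZMod (p : ℕ)) := ⟨(Int.castRingHom (ZMod (p : ℕ))).comp
        (Rat.ringOfIntegersEquiv : 𝓞 ℚ ≃+* ℤ).toRingHom⟩
      exact Nat.card_pos
    have h3 : (1 : ℝ) ≤ (cnt ℚ (p : ℕ) : ℝ) := by exact_mod_cast h2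
    have h4 : (0 : ℝ) ≤ (p : ℝ) ^ (-s) := by positivity
    nlinarith
  have := (abs_le.1 h).2
  linarith

/-- the point `1 + 1 / log x` -/
theorem tendsto_pt : Tendsto (fun x : ℕ => 1 + 1 / Real.log x) atTop (𝓝[>] 1) := by
  rw [tendsto_nhdsWithin_iff]
  have h1 : Tendsto (fun x : ℕ => Real.log x) atTop atTop :=
    Real.tendsto_log_atTop.comp tendsto_natCast_atTop_atTop
  constructor
  · have h2 : Tendsto (fun x : ℕ => 1 / Real.log x) atTop (𝓝 0) := by
      simp only [one_div]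
      exact h1.inv_tendsto_atTop
    simpa using (tendsto_const_nhds (x := (1 : ℝ))).add h2
  · filter_upwards [eventually_ge_atTop 2] with x hx
    have : 0 < Real.log x := Real.log_pos (by exact_mod_cast (by omega : 1 < x))
    change 1 < 1 + 1 / Real.log x
    have : 0 < 1 / Real.log x := by positivity
    linarith

theorem one_sub_le {n : ℕ} (hn : 2 ≤ n) {t : ℝ} :
    (1 : ℝ) / n - (n : ℝ) ^ (-(1 + t)) ≤ t * (Real.log n / n) := by
  have hn0 : (0 : ℝ) < n := by exact_mod_cast (by omega : 0 < n)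
  have h1 : (n : ℝ) ^ (-(1 + t)) = (1 / n) * Real.exp (-(t * Real.log n)) := by
    rw [show -(1 + t) = -1 + -t by ring, Real.rpow_add hn0, Real.rpow_neg_one, one_div,
      Real.rpow_def_of_pos hn0]
    congr 2
    ring
  have h2 : 1 - t * Real.log n ≤ Real.exp (-(t * Real.log n)) := by
    have := Real.add_one_le_exp (-(t * Real.log n))
    linarith
  rw [h1]
  have h3 : (1 / (n : ℝ)) * (1 - t * Real.log n) ≤ (1 / n) * Real.exp (-(t * Real.log n)) := by
    gcongr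
  have h4 : t * (Real.log n / n) = (1 / (n : ℝ)) * (t * Real.log n) := by ring
  rw [h4]
  linarith

theorem head : ∃ C : ℝ, 0 ≤ C ∧ ∀ x : ℕ, 2 ≤ x →
    ∑ p ∈ PX x, ((1 : ℝ) / (p : ℕ) - ((p : ℕ) : ℝ) ^ (-(1 + 1 / Real.log x))) ≤ C := by
  obtain ⟨C, hC0, hC⟩ := mertens
  have hl2 : 0 < Real.log 2 := Real.log_pos (by norm_num)
  refine ⟨1 + C / Real.log 2, by positivity, fun x hx => ?_⟩
  have hx1 : Real.log 2 ≤ Real.log x := Real.log_le_log (by norm_num) (by exact_mod_cast hx)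
  have hx0 : 0 < Real.log x := by linarith
  calc ∑ p ∈ PX x, ((1 : ℝ) / (p : ℕ) - ((p : ℕ) : ℝ) ^ (-(1 + 1 / Real.log x)))
      ≤ ∑ p ∈ PX x, (1 / Real.log x) * (Real.log (p : ℕ) / (p : ℕ)) :=
        Finset.sum_le_sum fun p _ => one_sub_le p.2.two_le
    _ = (1 / Real.log x) * ∑ p ∈ PX x, Real.log (p : ℕ) / (p : ℕ) := by rw [Finset.mul_sum]
    _ ≤ (1 / Real.log x) * (Real.log x + C) := by
        have := (hC x hx).2
        gcongr
    _ = 1 + C / Real.log x := by field_simp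
    _ ≤ 1 + C / Real.log 2 := by gcongr

theorem tail : ∃ C : ℝ, 0 ≤ C ∧ ∀ᶠ x : ℕ in atTop,
    ∑' p : {p : Nat.Primes // p ∉ PX x}, ((p : Nat.Primes) : ℝ) ^ (-(1 + 1 / Real.log x)) ≤ C := by
  obtain ⟨C₁, h1⟩ := dir_upper
  obtain ⟨C₂, hC₂, h2⟩ := head
  obtain ⟨C₃, hC₃, h3⟩ := mertens
  refine ⟨|C₁| + C₂ + C₃, by positivity, ?_⟩
  filter_upwards [tendsto_pt.eventually h1, eventually_ge_atTop 2,
    tendsto_pt.eventually self_mem_nhdsWithin] with x hx1 hx2 hx3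
  have hs : (1 : ℝ) < 1 + 1 / Real.log x := hx3
  have h4 := (summable_rpow_primes hs).sum_add_tsum_subtype_compl (PX x)
  have h5 := h2 x hx2
  have h6 := (abs_le.1 (h3 x hx2).1).1
  rw [Finset.sum_sub_distrib] at h5
  have h7 : Real.log (1 / (1 + 1 / Real.log x - 1)) = Real.log (Real.log x) := by
    congr 1
    rw [add_sub_cancel_left, one_div_one_div]
  rw [h7] at hx1
  have h8 := le_abs_self C₁
  have h9 : ∑ p ∈ PX x, ((p : ℕ) : ℝ) ^ (-(1 + 1 / Real.log x)) + ∑' p : {p : Nat.Primes // p ∉ PX x},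
      ((p : Nat.Primes) : ℝ) ^ (-(1 + 1 / Real.log x)) = ∑' p : Nat.Primes, (p : ℝ) ^ (-(1 + 1 / Real.log x)) := h4
  linarith

/-- **From the Dirichlet series to the partial sums.** -/
theorem transfer (a : Nat.Primes → ℝ) {K : ℝ} (hK : 0 ≤ K) (ha : ∀ p, |a p| ≤ K) {δ C : ℝ}
    (h : ∀ᶠ s in 𝓝[>] (1 : ℝ),
      |∑' p : Nat.Primes, a p * (p : ℝ) ^ (-s) - δ * Real.log (1 / (s - 1))| ≤ C) :
    ∃ C' : ℝ, ∀ x : ℕ, 2 ≤ x →
      |∑ p ∈ PX x, a p / (p : ℕ) - δ * Real.log (Real.log x)| ≤ C' := by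
  obtain ⟨C₁, hC₁, h1⟩ := head
  obtain ⟨C₂, hC₂, h2⟩ := tail
  have hev : ∀ᶠ x : ℕ in atTop, |∑ p ∈ PX x, a p / (p : ℕ) - δ * Real.log (Real.log x)| ≤
      C + K * C₁ + K * C₂ := by
    filter_upwards [tendsto_pt.eventually h, h2, eventually_ge_atTop 2,
      tendsto_pt.eventually self_mem_nhdsWithin] with x hx1 hx2 hx3 hx4
    have hs : (1 : ℝ) < 1 + 1 / Real.log x := hx4
    set s := 1 + 1 / Real.log x with hsdef
    have hsum : Summable fun p : Nat.Primes => a p * (p : ℝ) ^ (-s) := by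
      refine Summable.of_norm_bounded (g := fun p : Nat.Primes => K * (p : ℝ) ^ (-s))
        ((summable_rpow_primes hs).mul_left K) fun p => ?_
      rw [Real.norm_eq_abs, abs_mul, abs_of_nonneg (show (0:ℝ) ≤ (p : ℝ) ^ (-s) by positivity)]
      exact mul_le_mul_of_nonneg_right (ha p) (by positivity)
    have h4 := hsum.sum_add_tsum_subtype_compl (PX x)
    have h5 : |∑' p : {p : Nat.Primes // p ∉ PX x}, a p * ((p : Nat.Primes) : ℝ) ^ (-s)| ≤ K * C₂ := by
      have h6 : Summable fun p : {p : Nat.Primes // p ∉ PX x} => ((p : Nat.Primes) : ℝ) ^ (-s) :=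
        (summable_rpow_primes hs).subtype _
      have h7 : |∑' p : {p : Nat.Primes // p ∉ PX x}, a p * ((p : Nat.Primes) : ℝ) ^ (-s)| ≤
          ∑' p : {p : Nat.Primes // p ∉ PX x}, K * ((p : Nat.Primes) : ℝ) ^ (-s) := by
        rw [← Real.norm_eq_abs]
        refine tsum_of_norm_bounded (h6.mul_left K).hasSum fun p => ?_
        rw [Real.norm_eq_abs, abs_mul, abs_of_nonneg (show (0:ℝ) ≤ ((p : Nat.Primes) : ℝ) ^ (-s) by positivity)]
        exact mul_le_mul_of_nonneg_right (ha _) (by positivity)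
      rw [tsum_mul_left] at h7
      exact h7.trans (mul_le_mul_of_nonneg_left hx2 hK)
    have h6 : |∑ p ∈ PX x, a p / (p : ℕ) - ∑ p ∈ PX x, a p * (p : ℝ) ^ (-s)| ≤ K * C₁ := by
      rw [← Finset.sum_sub_distrib]
      calc |∑ p ∈ PX x, (a p / (p : ℕ) - a p * (p : ℝ) ^ (-s))|
          ≤ ∑ p ∈ PX x, K * ((1 : ℝ) / (p : ℕ) - ((p : ℕ) : ℝ) ^ (-s)) := by
            refine (Finset.abs_sum_le_sum_abs _ _).trans (Finset.sum_le_sum fun p _ => ?_)
            have h8 : a p / (p : ℕ) - a p * (p : ℝ) ^ (-s) = a p * ((1 : ℝ) / (p : ℕ) - ((p : ℕ) : ℝ) ^ (-s)) := by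
              ring
            have h9 : 0 ≤ (1 : ℝ) / (p : ℕ) - ((p : ℕ) : ℝ) ^ (-s) := by
              have hp1 : (1 : ℝ) ≤ (p : ℕ) := by exact_mod_cast p.2.one_le
              have : ((p : ℕ) : ℝ) ^ (-s) ≤ ((p : ℕ) : ℝ) ^ (-1 : ℝ) :=
                Real.rpow_le_rpow_of_exponent_le hp1 (by linarith)
              rw [Real.rpow_neg_one] at this
              rw [one_div]
              linarith
            rw [h8, abs_mul, abs_of_nonneg h9]
            exact mul_le_mul_of_nonneg_right (ha p) h9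
        _ = K * ∑ p ∈ PX x, ((1 : ℝ) / (p : ℕ) - ((p : ℕ) : ℝ) ^ (-s)) := by rw [Finset.mul_sum]
        _ ≤ K * C₁ := mul_le_mul_of_nonneg_left (h1 x hx3) hK
    have h7 : Real.log (1 / (s - 1)) = Real.log (Real.log x) := by
      congr 1
      rw [hsdef, add_sub_cancel_left, one_div_one_div]
    rw [h7] at hx1
    rw [← h4] at hx1
    rw [abs_le] at hx1 h5 h6 ⊢
    constructor <;> linarith [hx1.1, hx1.2, h5.1, h5.2, h6.1, h6.2]
  obtain ⟨x₀, hx₀⟩ := eventually_atTop.1 hev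
  refine ⟨|C + K * C₁ + K * C₂| + ∑ x ∈ Finset.range x₀,
    |∑ p ∈ PX x, a p / (p : ℕ) - δ * Real.log (Real.log x)|, fun x hx => ?_⟩
  rcases le_or_gt x₀ x with h3 | h3
  · have h4 := hx₀ x h3
    have h5 : 0 ≤ ∑ x ∈ Finset.range x₀, |∑ p ∈ PX x, a p / (p : ℕ) - δ * Real.log (Real.log x)| :=
      Finset.sum_nonneg fun _ _ => abs_nonneg _
    have h6 := le_abs_self (C + K * C₁ + K * C₂)
    linarith
  · have h4 : |∑ p ∈ PX x, a p / (p : ℕ) - δ * Real.log (Real.log x)| ≤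
        ∑ x ∈ Finset.range x₀, |∑ p ∈ PX x, a p / (p : ℕ) - δ * Real.log (Real.log x)| :=
      Finset.single_le_sum (f := fun x : ℕ => |∑ p ∈ PX x, a p / (p : ℕ) - δ * Real.log (Real.log x)|)
        (fun _ _ => abs_nonneg _) (Finset.mem_range.2 h3)
    have h6 := abs_nonneg (C + K * C₁ + K * C₂)
    linarith

/-! ## Primes of degree one -/

section fib

variable {k : Type} [Field k] [NumberField k]

theorem hom_bij (p : ℕ) [hp : Fact p.Prime] : Function.Bijective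
    (fun ψ : 𝓞 k →+* ZMod p => (⟨vp k p ψ, absNorm_ker p ψ⟩ : {v : Pr k // nm v = p})) := by
  constructor
  · intro φ φ' h
    have h1 := congrArg (fun z : {v : Pr k // nm v = p} => z.1.asIdeal) h
    exact ZMod.ringHom_eq_of_ker_eq φ φ' h1
  · rintro ⟨v, hv⟩
    have hI : Nat.card (𝓞 k ⧸ v.asIdeal) = p := by
      rw [nm, Ideal.absNorm_apply, Submodule.cardQuot_apply] at hv
      exact hv
    have hfin : Finite (𝓞 k ⧸ v.asIdeal) := Nat.finite_of_card_ne_zero (by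
      rw [hI]; exact hp.out.ne_zero)
    have := Fintype.ofFinite (𝓞 k ⧸ v.asIdeal)
    rw [Nat.card_eq_fintype_card] at hI
    let e := (ZMod.ringEquivOfPrime (𝓞 k ⧸ v.asIdeal) hp.out hI).symm
    refine ⟨e.toRingHom.comp (Ideal.Quotient.mk v.asIdeal), ?_⟩
    apply Subtype.ext
    apply HeightOneSpectrum.ext
    change RingHom.ker (e.toRingHom.comp (Ideal.Quotient.mk v.asIdeal)) = v.asIdeal
    ext x
    rw [RingHom.mem_ker]
    change e (Ideal.Quotient.mk v.asIdeal x) = 0 ↔ x ∈ v.asIdeal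
    rw [EmbeddingLike.map_eq_zero_iff, Ideal.Quotient.eq_zero_iff_mem]

/-- homomorphisms to the prime field and primes of norm `p` -/
def homEquiv (p : ℕ) [hp : Fact p.Prime] : (𝓞 k →+* ZMod p) ≃ {v : Pr k // nm v = p} :=
  Equiv.ofBijective _ (hom_bij p)

theorem homEquiv_ideal (p : ℕ) [hp : Fact p.Prime] (ψ : 𝓞 k →+* ZMod p) :
    (homEquiv p ψ).1.asIdeal = RingHom.ker ψ := rfl

instance finite_nm (p : ℕ) [hp : Fact p.Prime] : Finite {v : Pr k // nm v = p} := by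
  have := finite_homs k p
  exact Finite.of_equiv _ (homEquiv (k := k) p)

theorem card_nm (p : ℕ) [hp : Fact p.Prime] : Nat.card {v : Pr k // nm v = p} = cnt k p := by
  rw [cnt_eq_homs]
  exact (Nat.card_congr (homEquiv (k := k) p)).symm

theorem cnt_le (p : ℕ) [hp : Fact p.Prime] : cnt k p ≤ Module.finrank ℚ k := by
  rw [← card_norm_prime k p]
  refine le_trans ?_ (card_primesOver_le k p)
  rw [← Nat.card_eq_fintype_card]
  exact Nat.card_le_card_of_injective Subtype.val Subtype.val_injective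

theorem card_Q_le (Q : Set (Pr k)) (p : ℕ) [hp : Fact p.Prime] :
    Nat.card {v : Pr k // v ∈ Q ∧ nm v = p} ≤ Module.finrank ℚ k := by
  refine le_trans ?_ (cnt_le (k := k) p)
  rw [← card_nm (k := k) p]
  refine Nat.card_le_card_of_injective
    (fun v : {v : Pr k // v ∈ Q ∧ nm v = p} => (⟨v.1, v.2.2⟩ : {v : Pr k // nm v = p})) ?_
  intro v w h
  exact Subtype.ext (congrArg (fun z : {v : Pr k // nm v = p} => z.1) h)

open scoped Classical in
theorem fib (B : ℕ → Finset (Pr k)) (hB : ∀ x v, v ∈ B x ↔ nm v ≤ x) (Q : Set (Pr k))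
    (hQ : ∀ v ∈ Q, (nm v).Prime) (x : ℕ) :
    ∑ v ∈ (B x).filter (· ∈ Q), (1 : ℝ) / nm v =
      ∑ p ∈ PX x, (Nat.card {v : Pr k // v ∈ Q ∧ nm v = (p : ℕ)} : ℝ) / (p : ℕ) := by
  rw [sum_PX (fun n => (Nat.card {v : Pr k // v ∈ Q ∧ nm v = n} : ℝ) / n),
    ← Finset.sum_fiberwise_of_maps_to (s := (B x).filter (· ∈ Q))
      (t := (Finset.range (x + 1)).filter Nat.Prime) (g := nm)]
  · refine Finset.sum_congr rfl fun n hn => ?_
    rw [Finset.mem_filter, Finset.mem_range] at hn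
    have h1 : ∀ v ∈ ((B x).filter (· ∈ Q)).filter (fun v => nm v = n), (1 : ℝ) / nm v = 1 / n := by
      intro v hv
      rw [(Finset.mem_filter.1 hv).2]
    rw [Finset.sum_congr rfl h1, Finset.sum_const, nsmul_eq_mul]
    have h2 : Nat.card {v : Pr k // v ∈ Q ∧ nm v = n} =
        (((B x).filter (· ∈ Q)).filter (fun v => nm v = n)).card := by
      rw [← Fintype.card_coe, ← Nat.card_eq_fintype_card]
      refine Nat.card_congr (Equiv.subtypeEquivRight fun v => ?_)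
      rw [Finset.mem_filter, Finset.mem_filter, hB]
      constructor
      · rintro ⟨h3, h4⟩
        exact ⟨⟨by omega, h3⟩, h4⟩
      · rintro ⟨⟨_, h3⟩, h4⟩
        exact ⟨h3, h4⟩
    rw [h2]
    ring
  · intro v hv
    rw [Finset.mem_filter, hB] at hv
    rw [Finset.mem_filter, Finset.mem_range]
    exact ⟨by omega, hQ v hv.2⟩

open scoped Classical in
/-- **The density of a set of primes of degree one from its Dirichlet series.** -/
theorem density_of_dirichlet (B : ℕ → Finset (Pr k)) (hB : ∀ x v, v ∈ B x ↔ nm v ≤ x)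
    (Q : Set (Pr k)) (hQ : ∀ v ∈ Q, (nm v).Prime) (a : Nat.Primes → ℝ) (bad : Finset ℕ)
    (ha : ∀ p : Nat.Primes, (p : ℕ) ∉ bad → a p = Nat.card {v : Pr k // v ∈ Q ∧ nm v = (p : ℕ)})
    {δ C : ℝ} (h : ∀ᶠ s in 𝓝[>] (1 : ℝ),
      |∑' p : Nat.Primes, a p * (p : ℝ) ^ (-s) - δ * Real.log (1 / (s - 1))| ≤ C) :
    ∃ C' : ℝ, ∀ x : ℕ, 2 ≤ x →
      |∑ v ∈ (B x).filter (· ∈ Q), (1 : ℝ) / nm v - δ * Real.log (Real.log x)| ≤ C' := by
  -- the finitely many bad primes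
  set D : Finset Nat.Primes := bad.subtype Nat.Prime with hD
  have hmD : ∀ p : Nat.Primes, p ∈ D ↔ (p : ℕ) ∈ bad := fun p => Finset.mem_subtype
  have hcard : ∀ p : Nat.Primes, (Nat.card {v : Pr k // v ∈ Q ∧ nm v = (p : ℕ)} : ℝ) ≤
      Module.finrank ℚ k := by
    intro p
    have hp : Fact (p : ℕ).Prime := ⟨p.2⟩
    exact_mod_cast card_Q_le Q (p : ℕ)
  obtain ⟨C₁, h1⟩ := transfer a (K := (Module.finrank ℚ k : ℝ) + ∑ p ∈ D, |a p|)
    (add_nonneg (Nat.cast_nonneg _) (Finset.sum_nonneg fun _ _ => abs_nonneg _)) (by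
      intro p
      by_cases hp : (p : ℕ) ∈ bad
      · have h2 : |a p| ≤ ∑ p ∈ D, |a p| :=
          Finset.single_le_sum (f := fun p => |a p|) (fun _ _ => abs_nonneg _) ((hmD p).2 hp)
        have h3 : (0 : ℝ) ≤ (Module.finrank ℚ k : ℝ) := Nat.cast_nonneg _
        linarith
      · have h2 : 0 ≤ ∑ p ∈ D, |a p| := Finset.sum_nonneg fun _ _ => abs_nonneg _
        rw [ha p hp, abs_of_nonneg (Nat.cast_nonneg _)]
        have := hcard p
        linarith) h
  refine ⟨C₁ + ∑ p ∈ D, |(Nat.card {v : Pr k // v ∈ Q ∧ nm v = (p : ℕ)} : ℝ) - a p|, fun x hx => ?_⟩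
  rw [fib B hB Q hQ x]
  have h2 := h1 x hx
  have h3 : |∑ p ∈ PX x, (Nat.card {v : Pr k // v ∈ Q ∧ nm v = (p : ℕ)} : ℝ) / (p : ℕ) -
      ∑ p ∈ PX x, a p / (p : ℕ)| ≤
      ∑ p ∈ D, |(Nat.card {v : Pr k // v ∈ Q ∧ nm v = (p : ℕ)} : ℝ) - a p| := by
    rw [← Finset.sum_sub_distrib]
    refine (Finset.abs_sum_le_sum_abs _ _).trans ?_
    have h4 : ∀ p ∈ PX x, |(Nat.card {v : Pr k // v ∈ Q ∧ nm v = (p : ℕ)} : ℝ) / (p : ℕ) - a p / (p : ℕ)| ≤
        if p ∈ D then |(Nat.card {v : Pr k // v ∈ Q ∧ nm v = (p : ℕ)} : ℝ) - a p| else 0 := by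
      intro p _
      split_ifs with hp
      · rw [← sub_div, abs_div]
        have h5 : (1 : ℝ) ≤ |((p : ℕ) : ℝ)| := by
          rw [abs_of_nonneg (Nat.cast_nonneg _)]
          exact_mod_cast p.2.one_le
        exact div_le_self (abs_nonneg _) h5
      · rw [hmD] at hp
        rw [ha p hp, sub_self, abs_zero]
    refine (Finset.sum_le_sum h4).trans ?_
    rw [← Finset.sum_filter]
    exact Finset.sum_le_sum_of_subset_of_nonneg
      (fun p hp => (Finset.mem_filter.1 hp).2) fun _ _ _ => abs_nonneg _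
  rw [abs_le] at h2 h3 ⊢
  constructor <;> linarith [h2.1, h2.2, h3.1, h3.2]

end fib

end

end Pool.Agent.Helper21.HG
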